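import Mathlib
import Pool.Agent.MP_ebd346_nt.Arith

set_option autoImplicit false

namespace Pool.Agent.Results.MP_ebd346_nt.InfinitelyMany

open Pool.Agent.MP_ebd346_nt

/-- `Tri a b s h`: some non-degenerate plane triangle has edge lengths `a`, `b`, `s`, and its
altitude onto the line containing the edge of length `s` (the base) has length `h`. -/
def Tri (a b s : ℕ) (h : ℝ) : Prop :=
  ∃ T : Affine.Triangle ℝ (EuclideanSpace ℝ (Fin 2)),
    dist (T.points 2) (T.points 0) = a ∧ dist (T.points 2) (T.points 1) = b ∧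
      dist (T.points 0) (T.points 1) = s ∧ T.height 2 = h

lemma height_spec (T : Affine.Triangle ℝ (EuclideanSpace ℝ (Fin 2))) :
    ∃ x : ℝ, x ^ 2 + T.height 2 ^ 2 = dist (T.points 2) (T.points 0) ^ 2 ∧
      (dist (T.points 0) (T.points 1) - x) ^ 2 + T.height 2 ^ 2
        = dist (T.points 2) (T.points 1) ^ 2 := by
  have hF := T.altitudeFoot_mem_affineSpan_image_compl 2
  have hset : T.points '' ({2}ᶜ : Set (Fin 3)) = {T.points 0, T.points 1} := by
    have : ({2}ᶜ : Set (Fin 3)) = {0, 1} := by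
      ext i; fin_cases i <;> simp
    rw [this, Set.image_pair]
  rw [hset] at hF
  obtain ⟨t, ht⟩ := (mem_affineSpan_pair_iff_exists_lineMap_eq).1 hF
  have h0 := T.inner_vsub_altitudeFoot_vsub_altitudeFoot_eq_zero (i := 2) (j := 0) (by decide)
  have h1 := T.inner_vsub_altitudeFoot_vsub_altitudeFoot_eq_zero (i := 2) (j := 1) (by decide)
  simp only at h0 h1
  refine ⟨t * dist (T.points 0) (T.points 1), ?_, ?_⟩
  · unfold Affine.Simplex.height
    rw [← ht] at h0 h1 ⊢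
    simp only [mul_pow, EuclideanSpace.dist_sq_eq, Fin.sum_univ_two, Real.dist_eq, sq_abs,
      AffineMap.lineMap_apply, vsub_eq_sub, vadd_eq_add, PiLp.inner_apply, PiLp.sub_apply,
      PiLp.add_apply, PiLp.smul_apply, smul_eq_mul, RCLike.inner_apply, conj_trivial] at h0 h1 ⊢
    linear_combination (2 : ℝ) * h0
  · have e : (dist (T.points 0) (T.points 1) - t * dist (T.points 0) (T.points 1)) ^ 2
        = (1 - t) ^ 2 * dist (T.points 0) (T.points 1) ^ 2 := by ring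
    rw [e]
    unfold Affine.Simplex.height
    rw [← ht] at h0 h1 ⊢
    simp only [mul_pow, EuclideanSpace.dist_sq_eq, Fin.sum_univ_two, Real.dist_eq, sq_abs,
      AffineMap.lineMap_apply, vsub_eq_sub, vadd_eq_add, PiLp.inner_apply, PiLp.sub_apply,
      PiLp.add_apply, PiLp.smul_apply, smul_eq_mul, RCLike.inner_apply, conj_trivial] at h0 h1 ⊢
    linear_combination (2 : ℝ) * h1

lemma tri_iff (a b s : ℕ) (h : ℝ) :
    Tri a b s h ↔ 0 < h ∧ 0 < s ∧ ∃ x : ℝ, x ^ 2 + h ^ 2 = (a : ℝ) ^ 2 ∧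
      ((s : ℝ) - x) ^ 2 + h ^ 2 = (b : ℝ) ^ 2 := by
  constructor
  · rintro ⟨T, ha, hb, hs, hh⟩
    obtain ⟨x, h1, h2⟩ := height_spec T
    rw [ha, hh] at h1
    rw [hb, hs, hh] at h2
    refine ⟨hh ▸ T.height_pos 2, ?_, x, h1, h2⟩
    have hne : T.points 0 ≠ T.points 1 := fun e => by
      have := T.independent.injective e
      exact absurd this (by decide)
    have : (0 : ℝ) < s := hs ▸ dist_pos.2 hne
    exact_mod_cast this
  · rintro ⟨hh, hs, x, h1, h2⟩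
    have hs' : (0 : ℝ) < s := by exact_mod_cast hs
    have hind : AffineIndependent ℝ
        ![(!₂[0, 0] : EuclideanSpace ℝ (Fin 2)), !₂[(s : ℝ), 0], !₂[x, h]] := by
      rw [affineIndependent_iff_not_collinear_set]
      intro hcol
      rw [collinear_iff_of_mem (p₀ := (!₂[0, 0] : EuclideanSpace ℝ (Fin 2))) (by simp)] at hcol
      obtain ⟨v, hv⟩ := hcol
      obtain ⟨r1, hr1⟩ := hv !₂[(s : ℝ), 0] (by simp)
      obtain ⟨r2, hr2⟩ := hv !₂[x, h] (by simp)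
      have e1 : (s : ℝ) = r1 * v 0 := by simpa using congrArg (fun p => p 0) hr1
      have e2 : (0 : ℝ) = r1 * v 1 := by simpa using congrArg (fun p => p 1) hr1
      have e3 : h = r2 * v 1 := by simpa using congrArg (fun p => p 1) hr2
      have hr : r1 ≠ 0 := by rintro rfl; simp at e1; omega
      have hv1 : v 1 = 0 := (mul_eq_zero.1 e2.symm).resolve_left hr
      rw [hv1] at e3; linarith
    let T : Affine.Triangle ℝ (EuclideanSpace ℝ (Fin 2)) := ⟨_, hind⟩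
    have ha : dist (T.points 2) (T.points 0) = a := by
      have : dist (T.points 2) (T.points 0) ^ 2 = (a : ℝ) ^ 2 := by
        simp [T, EuclideanSpace.dist_sq_eq, Fin.sum_univ_two, Real.dist_eq, sq_abs, h1]
      exact (pow_left_inj₀ dist_nonneg (by positivity) (by norm_num)).1 this
    have hb : dist (T.points 2) (T.points 1) = b := by
      have : dist (T.points 2) (T.points 1) ^ 2 = (b : ℝ) ^ 2 := by
        simp [T, EuclideanSpace.dist_sq_eq, Fin.sum_univ_two, Real.dist_eq, sq_abs, ← h2]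
        ring
      exact (pow_left_inj₀ dist_nonneg (by positivity) (by norm_num)).1 this
    have hsd : dist (T.points 0) (T.points 1) = s := by
      have : dist (T.points 0) (T.points 1) ^ 2 = (s : ℝ) ^ 2 := by
        simp [T, EuclideanSpace.dist_sq_eq, Fin.sum_univ_two, Real.dist_eq, sq_abs]
      exact (pow_left_inj₀ dist_nonneg (by positivity) (by norm_num)).1 this
    refine ⟨T, ha, hb, hsd, ?_⟩
    obtain ⟨y, g1, g2⟩ := height_spec T
    rw [ha] at g1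
    rw [hb, hsd] at g2
    have hxy : y = x := by
      have : (s : ℝ) * (y - x) = 0 := by linarith
      have := (mul_eq_zero.1 this).resolve_left hs'.ne'
      linarith
    rw [hxy] at g1
    have : T.height 2 ^ 2 = h ^ 2 := by linarith
    exact (pow_left_inj₀ (T.height_pos 2).le hh.le (by norm_num)).1 this

lemma st_of_tri (N : ℚ) (hN : 0 < N) (hns : ∀ q : ℚ, q ^ 2 ≠ N ^ 2 + 4) {a b s : ℕ} {h : ℝ}
    (ht : Tri a b s h) (hr : (s : ℝ) / h = N) : {p | St N p}.Nonempty := by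
  obtain ⟨hh, hs, x, h1, h2⟩ := (tri_iff a b s h).1 ht
  have hs' : (0 : ℝ) < s := by exact_mod_cast hs
  have hsq : (0 : ℚ) < s := by exact_mod_cast hs
  have hNr : (0 : ℝ) < N := by exact_mod_cast hN
  have hhe : h = s / N := by rw [← hr]; field_simp
  have heron : (((a : ℝ) + b) ^ 2 - s ^ 2) * (s ^ 2 - ((b : ℝ) - a) ^ 2) = 4 * s ^ 2 * h ^ 2 := by
    have e : (((a : ℝ) + b) ^ 2 - s ^ 2) * (s ^ 2 - ((b : ℝ) - a) ^ 2)
        = 2 * a ^ 2 * b ^ 2 + 2 * a ^ 2 * s ^ 2 + 2 * b ^ 2 * s ^ 2 - (a ^ 2) ^ 2 - (b ^ 2) ^ 2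
          - s ^ 4 := by ring
    rw [e, ← h1, ← h2]; ring
  have heronq : (((a : ℚ) + b) ^ 2 - s ^ 2) * (s ^ 2 - ((b : ℚ) - a) ^ 2)
      = 4 * s ^ 2 * (s / N) ^ 2 := by
    rw [hhe] at heron
    exact_mod_cast heron
  set S : ℚ := ((a : ℚ) + b) * N / s with hS
  set D : ℚ := ((b : ℚ) - a) * N / s with hD
  have key : (S ^ 2 - N ^ 2) * (N ^ 2 - D ^ 2) = 4 * N ^ 2 := by
    have e : (S ^ 2 - N ^ 2) * (N ^ 2 - D ^ 2)
        = (N / s) ^ 4 * ((((a : ℚ) + b) ^ 2 - s ^ 2) * (s ^ 2 - ((b : ℚ) - a) ^ 2)) := by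
      rw [hS, hD]; field_simp
    rw [e, heronq]; field_simp
  have hD0 : D ≠ 0 := by
    intro h0
    rw [h0] at key
    apply hns S
    have : N ^ 2 * (S ^ 2 - (N ^ 2 + 4)) = 0 := by linear_combination key
    have := (mul_eq_zero.1 this).resolve_left (by positivity)
    linarith
  have hb0 : S ^ 2 - N ^ 2 ≠ 0 := by
    intro h0
    rw [h0] at key
    have : 0 < N ^ 2 := by positivity
    linarith
  have hS0 : S ≠ 0 := by
    have ha : 0 < a := by
      rcases Nat.eq_zero_or_pos a with rfl | ha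
      · have : 0 < h ^ 2 := by positivity
        simp at h1; nlinarith [sq_nonneg x]
      · exact ha
    have : (0 : ℚ) < a := by exact_mod_cast ha
    rw [hS]; positivity
  refine ⟨_, double_pre N (S ^ 2) (S ^ 2 - N ^ 2) (S ^ 2 - N ^ 2 - 4) (S * (S ^ 2 - N ^ 2) * D / N)
    (by ring) (by ring) ?_ (by positivity)⟩
  field_simp
  linear_combination (-1 : ℚ) * key

lemma exists_primitive (α β N : ℚ) (hα : 0 ≤ α) (hβ : 0 ≤ β) (hN : 0 < N) :
    ∃ (l : ℚ) (a b s : ℕ), 0 < l ∧ (a : ℚ) = l * α ∧ (b : ℚ) = l * β ∧ (s : ℚ) = l * N ∧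
      Nat.gcd a (Nat.gcd b s) = 1 := by
  have nat_of : ∀ (q : ℚ) (d : ℕ), 0 ≤ q → q.den ∣ d → ∃ n : ℕ, (n : ℚ) = d * q := by
    intro q d hq ⟨e, he⟩
    refine ⟨e * q.num.toNat, ?_⟩
    have h1 : ((q.num.toNat : ℕ) : ℚ) = q.num := by
      have := Int.toNat_of_nonneg (Rat.num_nonneg.2 hq)
      exact_mod_cast this
    rw [he]; push_cast; rw [h1, mul_comm (q.den : ℚ), mul_assoc, Rat.den_mul_eq_num]
  set d : ℕ := α.den * β.den * N.den with hd
  have hd0 : 0 < d := by rw [hd]; positivity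
  obtain ⟨a, ha⟩ := nat_of α d hα ⟨β.den * N.den, by rw [hd]; ring⟩
  obtain ⟨b, hb⟩ := nat_of β d hβ ⟨α.den * N.den, by rw [hd]; ring⟩
  obtain ⟨s, hs⟩ := nat_of N d hN.le ⟨α.den * β.den, by rw [hd]; ring⟩
  have hdq : (0 : ℚ) < d := by exact_mod_cast hd0
  have hs0 : 0 < s := by
    have : (0 : ℚ) < s := by rw [hs]; positivity
    exact_mod_cast this
  set g := Nat.gcd a (Nat.gcd b s) with hg
  have hg0 : 0 < g := Nat.gcd_pos_of_pos_right _ (Nat.gcd_pos_of_pos_right _ hs0)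
  obtain ⟨a1, ha1⟩ : g ∣ a := Nat.gcd_dvd_left _ _
  obtain ⟨b1, hb1⟩ : g ∣ b := (Nat.gcd_dvd_right _ _).trans (Nat.gcd_dvd_left _ _)
  obtain ⟨s1, hs1⟩ : g ∣ s := (Nat.gcd_dvd_right _ _).trans (Nat.gcd_dvd_right _ _)
  have hgq : (0 : ℚ) < g := by exact_mod_cast hg0
  refine ⟨d / g, a1, b1, s1, by positivity, ?_, ?_, ?_, ?_⟩
  · have : (a : ℚ) = g * a1 := by exact_mod_cast ha1
    field_simp; linarith
  · have : (b : ℚ) = g * b1 := by exact_mod_cast hb1
    field_simp; linarith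
  · have : (s : ℚ) = g * s1 := by exact_mod_cast hs1
    field_simp; linarith
  · have : g * Nat.gcd a1 (Nat.gcd b1 s1) = g * 1 := by
      rw [← Nat.gcd_mul_left, ← Nat.gcd_mul_left, ← ha1, ← hb1, ← hs1, mul_one]
    exact Nat.eq_of_mul_eq_mul_left hg0 this

lemma tri_of_st (N : ℚ) (hN : 0 < N) (hns : ∀ q : ℚ, q ^ 2 ≠ N ^ 2 + 4) {A B C : ℚ}
    (hp : St N (A, B, C)) :
    ∃ (a b s : ℕ) (h : ℝ), Nat.gcd a (Nat.gcd b s) = 1 ∧ Tri a b s h ∧ (s : ℝ) / h = N ∧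
      ∃ e1 ∈ ({1, -1} : Set ℚ), ∃ e2 ∈ ({1, -1} : Set ℚ), A = (e1 * a + e2 * b) * N / s := by
  obtain ⟨hA, hB, hC⟩ := st_ne N hN.ne' hns hp
  obtain ⟨h1, h2⟩ := hp
  simp only at h1 h2
  obtain ⟨l, a, b, s, hl, ha, hb, hs, hg⟩ :=
    exists_primitive |(A - N * C / B) / 2| |(A + N * C / B) / 2| N (abs_nonneg _) (abs_nonneg _) hN
  have hsq : (0 : ℚ) < s := by rw [hs]; positivity
  have q1 : (l * ((N - A * C / B) / 2)) ^ 2 + l ^ 2 = (a : ℚ) ^ 2 := by
    rw [ha, mul_pow l |_|, sq_abs]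
    field_simp
    linear_combination (-(B ^ 2 - C ^ 2)) * h1 - B ^ 2 * h2
  have q2 : ((s : ℚ) - l * ((N - A * C / B) / 2)) ^ 2 + l ^ 2 = (b : ℚ) ^ 2 := by
    rw [hb, hs, mul_pow l |_|, sq_abs]
    field_simp
    linear_combination (-(B ^ 2 - C ^ 2)) * h1 - B ^ 2 * h2
  refine ⟨a, b, s, (l : ℝ), hg, (tri_iff a b s l).2 ⟨by exact_mod_cast hl, by exact_mod_cast hsq,
    ((l * ((N - A * C / B) / 2) : ℚ) : ℝ), by exact_mod_cast q1, by exact_mod_cast q2⟩, ?_, ?_⟩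
  · have : (s : ℚ) / l = N := by rw [hs]; field_simp
    exact_mod_cast this
  · have sg : ∀ y : ℚ, ∃ e ∈ ({1, -1} : Set ℚ), e * |y| = y := by
      intro y
      rcases le_total 0 y with hy | hy
      · exact ⟨1, by simp, by rw [abs_of_nonneg hy]; ring⟩
      · exact ⟨-1, by simp, by rw [abs_of_nonpos hy]; ring⟩
    obtain ⟨e1, he1, h3⟩ := sg ((A - N * C / B) / 2)
    obtain ⟨e2, he2, h4⟩ := sg ((A + N * C / B) / 2)
    refine ⟨e1, he1, e2, he2, ?_⟩
    have e : e1 * a + e2 * b = l * A := by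
      rw [ha, hb]; linear_combination l * h3 + l * h4
    rw [e, hs]; field_simp

lemma main (N : ℚ) (hN : 0 < N) (hns : ∀ q : ℚ, q ^ 2 ≠ N ^ 2 + 4)
    (hinf : {p | St N p}.Infinite) :
    {m : Multiset ℕ | ∃ (a b s : ℕ) (h : ℝ), m = {a, b, s} ∧ Nat.gcd a (Nat.gcd b s) = 1 ∧
      Tri a b s h ∧ (s : ℝ) / h = N}.Infinite := by
  intro hfin
  apply fst_infinite N hinf
  set M := {m : Multiset ℕ | ∃ (a b s : ℕ) (h : ℝ), m = {a, b, s} ∧ Nat.gcd a (Nat.gcd b s) = 1 ∧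
      Tri a b s h ∧ (s : ℝ) / h = N} with hM
  have hU : (⋃ m ∈ M, {x : ℕ | x ∈ m}).Finite :=
    hfin.biUnion fun m _ => m.finite_toSet
  set U := ⋃ m ∈ M, {x : ℕ | x ∈ m} with hUdef
  have hE : ({1, -1} : Set ℚ).Finite := Set.toFinite _
  refine ((hE.prod (hE.prod (hU.prod (hU.prod hU)))).image
    (fun z : ℚ × ℚ × ℕ × ℕ × ℕ =>
      (z.1 * z.2.2.1 + z.2.1 * z.2.2.2.1) * N / z.2.2.2.2)).subset ?_
  rintro A ⟨B, C, hp⟩
  obtain ⟨a, b, s, h, hg, ht, hr, e1, he1, e2, he2, hA⟩ := tri_of_st N hN hns hp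
  have hm : ({a, b, s} : Multiset ℕ) ∈ M := ⟨a, b, s, h, rfl, hg, ht, hr⟩
  have hmem : ∀ x ∈ ({a, b, s} : Multiset ℕ), x ∈ U := fun x hx =>
    Set.mem_biUnion hm hx
  exact ⟨(e1, e2, a, b, s), ⟨he1, he2, hmem a (by simp), hmem b (by simp), hmem s (by simp)⟩,
    hA.symm⟩

theorem result (k : ℕ) (hk : 0 < k) :
    ((∃ (a b s : ℕ) (h : ℝ), Tri a b s h ∧ (s : ℝ) / h = k) →
      {m : Multiset ℕ | ∃ (a b s : ℕ) (h : ℝ), m = {a, b, s} ∧ Nat.gcd a (Nat.gcd b s) = 1 ∧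
        Tri a b s h ∧ (s : ℝ) / h = k}.Infinite) ∧
    ((∃ (a b s : ℕ) (h : ℝ), Tri a b s h ∧ h / (s : ℝ) = k) →
      {m : Multiset ℕ | ∃ (a b s : ℕ) (h : ℝ), m = {a, b, s} ∧ Nat.gcd a (Nat.gcd b s) = 1 ∧
        Tri a b s h ∧ h / (s : ℝ) = k}.Infinite) := by
  have hkz : (k : ℤ) ≠ 0 := by omega
  have hkq : (0 : ℚ) < k := by exact_mod_cast hk
  constructor
  · rintro ⟨a, b, s, h, ht, hr⟩
    have hns : ∀ q : ℚ, q ^ 2 ≠ (k : ℚ) ^ 2 + 4 := by simpa using ns_int k hkz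
    have hne := st_of_tri (k : ℚ) hkq hns ht (by simpa using hr)
    have hinf : {p | St (k : ℚ) p}.Infinite := by simpa using st_infinite_int k hkz (by simpa using hne)
    simpa using main k hkq hns hinf
  · rintro ⟨a, b, s, h, ht, hr⟩
    have conv : ∀ (s : ℕ) (h : ℝ), h / (s : ℝ) = k ↔ (s : ℝ) / h = ((1 / (k : ℚ) : ℚ) : ℝ) := by
      intro s h
      push_cast
      rw [← inv_div h, one_div, inv_inj]
    have hns : ∀ q : ℚ, q ^ 2 ≠ (1 / (k : ℚ)) ^ 2 + 4 := by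
      have := ns_inv k hkz
      push_cast at this
      exact this
    have hne := st_of_tri (1 / (k : ℚ)) (by positivity) hns ht ((conv s h).1 hr)
    have hinf : {p | St (1 / (k : ℚ)) p}.Infinite := by
      have := st_infinite_inv k hkz
      push_cast at this
      exact this hne
    simp only [conv]
    exact main _ (by positivity) hns hinf

end Pool.Agent.Results.MP_ebd346_nt.InfinitelyMany
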